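import Pool.Agent.W759.TR.Defs

namespace Pool.Agent.W743.TR

open Pool.Agent.W759.TR

abbrev Ltr : Type := Fin 2 × Bool

theorem toWord_gen (s : Ltr) : (gen s).toWord = [s] := by
  rw [gen, FreeGroup.toWord_mk]
  exact FreeGroup.IsReduced.reduce_eq FreeGroup.IsReduced.singleton

theorem gen_injective : Function.Injective gen := by
  intro a b h
  have := congrArg FreeGroup.toWord h
  rw [toWord_gen, toWord_gen] at this
  simpa using this

theorem gen_ne_one (s : Ltr) : gen s ≠ 1 := by
  intro h
  have := congrArg FreeGroup.toWord h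
  rw [toWord_gen] at this
  simp at this

theorem adj_iff (g h : FreeGroup (Fin 2)) : G4.Adj g h ↔ ∃ s : Ltr, h = g * gen s := by
  constructor
  · intro H; exact H.2
  · rintro ⟨s, rfl⟩
    refine ⟨?_, s, rfl⟩
    intro h
    exact gen_ne_one s (by simpa using h)

theorem ncard_nbr (v : FreeGroup (Fin 2)) : (G4.neighborSet v).ncard = 4 := by
  have h1 : G4.neighborSet v = Set.range (fun s : Ltr => v * gen s) := by
    ext h
    simp only [SimpleGraph.mem_neighborSet, adj_iff, Set.mem_range]
    constructor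
    · rintro ⟨s, rfl⟩; exact ⟨s, rfl⟩
    · rintro ⟨s, rfl⟩; exact ⟨s, rfl⟩
  have hinj : Function.Injective (fun s : Ltr => v * gen s) := by
    intro a b h
    exact gen_injective (mul_left_cancel h)
  rw [h1, ← Set.image_univ, Set.ncard_image_of_injective _ hinj, Set.ncard_univ,
    Nat.card_eq_fintype_card]
  rfl

theorem reach (L : List Ltr) : G4.Reachable 1 (FreeGroup.mk L) := by
  induction L using List.reverseRecOn with
  | nil => exact SimpleGraph.Reachable.refl _
  | append_singleton L s ih =>
    refine ih.trans (SimpleGraph.Adj.reachable ?_)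
    rw [adj_iff]
    exact ⟨s, by rw [gen, FreeGroup.mul_mk]⟩

theorem conn : G4.Connected := by
  rw [SimpleGraph.connected_iff_exists_forall_reachable]
  refine ⟨1, fun g => ?_⟩
  have := reach g.toWord
  rwa [FreeGroup.mk_toWord] at this

/-- The word of a walk. -/
def Wd : ∀ {v w : FreeGroup (Fin 2)}, G4.Walk v w → List Ltr
  | _, _, .nil => []
  | v, _, .cons (v := u) _ p => (v⁻¹ * u).toWord ++ Wd p

theorem mk_Wd {v w : FreeGroup (Fin 2)} (p : G4.Walk v w) : FreeGroup.mk (Wd p) = v⁻¹ * w := by
  induction p with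
  | nil => simp only [Wd, inv_mul_cancel]; rfl
  | cons h p ih =>
    rw [Wd, ← FreeGroup.mul_mk, ih, FreeGroup.mk_toWord]
    group

theorem Wd_cons {v u w : FreeGroup (Fin 2)} (s : Ltr) (h : G4.Adj v u) (hu : u = v * gen s)
    (p : G4.Walk u w) : Wd (SimpleGraph.Walk.cons h p) = s :: Wd p := by
  rw [Wd]
  have : v⁻¹ * u = gen s := by rw [hu]; group
  rw [this, toWord_gen]
  rfl

theorem red {v w : FreeGroup (Fin 2)} (p : G4.Walk v w) (hp : p.IsPath) :
    FreeGroup.IsReduced (Wd p) := by
  induction p with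
  | nil => exact FreeGroup.IsReduced.nil
  | cons h p ih =>
    rename_i v u w
    obtain ⟨s, hs⟩ := (adj_iff _ _).1 h
    rw [SimpleGraph.Walk.cons_isPath_iff] at hp
    have ih' := ih hp.1
    rw [Wd_cons s h hs]
    cases p with
    | nil => exact FreeGroup.IsReduced.singleton
    | cons h' p' =>
      rename_i u'
      obtain ⟨s', hs'⟩ := (adj_iff _ _).1 h'
      rw [Wd_cons s' h' hs'] at ih' ⊢
      rw [FreeGroup.isReduced_cons_cons]
      refine ⟨?_, ih'⟩
      intro h1
      by_contra h2
      have h3 : s' = (s.1, !s.2) := by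
        ext
        · rw [h1]
        · simp only
          revert h2
          cases s.2 <;> cases s'.2 <;> simp
      have h4 : u' = v := by
        rw [hs', h3, hs, mul_assoc, gen_mul_gen, mul_one]
      apply hp.2
      rw [SimpleGraph.Walk.support_cons, ← h4]
      exact List.mem_cons_of_mem _ (SimpleGraph.Walk.start_mem_support _)

theorem Wd_inj {v w : FreeGroup (Fin 2)} (p q : G4.Walk v w) (h : Wd p = Wd q) : p = q := by
  induction p with
  | nil =>
    cases q with
    | nil => rfl
    | cons h' q' =>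
      obtain ⟨s, hs⟩ := (adj_iff _ _).1 h'
      rw [Wd_cons s h' hs] at h
      simp [Wd] at h
  | cons h1 p ih =>
    rename_i v u w
    obtain ⟨s, hs⟩ := (adj_iff _ _).1 h1
    rw [Wd_cons s h1 hs] at h
    cases q with
    | nil => simp [Wd] at h
    | cons h' q' =>
      obtain ⟨s', hs'⟩ := (adj_iff _ _).1 h'
      rw [Wd_cons s' h' hs'] at h
      rw [List.cons.injEq] at h
      obtain ⟨h2, h3⟩ := h
      subst h2
      subst hs
      subst hs'
      rw [ih q' h3]

theorem t1 : T1 := by
  refine ⟨⟨conn, SimpleGraph.isAcyclic_of_path_unique ?_⟩, ncard_nbr⟩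
  intro v w p q
  apply Subtype.ext
  apply Wd_inj
  have h1 := (red p.1 p.2).reduce_eq
  have h2 := (red q.1 q.2).reduce_eq
  rw [← h1, ← h2, ← FreeGroup.toWord_mk, ← FreeGroup.toWord_mk, mk_Wd, mk_Wd]

end Pool.Agent.W743.TR
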